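import Pool.Agent.Q85.Mon.Exs

/-!
# The strong pair correlation conjecture and mean squares of `∑ x ^ (iγ)`

Only the ordinates of the zeros enter, and RH is not needed for the equivalences.  Let
`S (x, T) = ∑_{0 < γ ≤ T} x ^ (iγ)`.  The asymptotic relation
`F (α, T) = min (α, 1) + o (1)`, uniformly for `a ≤ α ≤ A`, for all `0 < a < A`
(under RH this is Q1, as Montgomery's theorem is the part `α ≤ 1`), holds if and only if for every
fixed `c > 1`, however near to `1`,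
`(1 / log c) ∫_X^{cX} |S (x, T)|² dx / x = (min (log X / log T, 1) + o (1)) (T / 2π) log T`,
uniformly for `T ^ a ≤ X ≤ T ^ A`, and it is sufficient to know this for some `c > 1` arbitrarily
near to `1`.  So for `T ≤ X ≤ T ^ A` the mean square of `S (x, T)` over `[X, cX]` is asymptotic to
the number of zeros.

Proof.  With `Q (v) = |S (e ^ v, T)|²` and `G (y) = ∑ ∑ cos (y (γ - γ')) w (γ - γ')` one has
`G (y) = ∫ exp (-2 |v - y|) Q (v) dv` and `Q = G - G'' / 4`.  If `G` is nearly constant near `y` then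
`G'` is small, by Landau's inequality and the one-sided bound `G'' ≤ 4 G`.  In the other direction
the mean of `G` over `[y, y + h]` is the mean, with the kernel `exp (-2 |v - y|)`, of the means of `Q`
over `[v, v + h]`, and `G` is nearly constant on `[y, y + h]` by Harnack's inequality.
-/

set_option autoImplicit false

open Filter Topology

namespace Pool.Agent.Results.MP_00e05b_nt.ExponentialSums

/-- the nontrivial zeros of `ζ` -/
def Zeros : Set ℂ := {s : ℂ | riemannZeta s = 0 ∧ 0 < s.re ∧ s.re < 1}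

/-- the multiplicity of `s` as a zero of `ζ` -/
noncomputable def mult (s : ℂ) : ℕ := analyticOrderNatAt riemannZeta s

/-- Montgomery's function `F (α, T) = (T log T / 2π)⁻¹ ∑ T ^ (i α (γ - γ')) w (γ - γ')`, where
`w (u) = 4 / (4 + u²)` and `γ, γ'` run over the ordinates in `(0, T]`, with multiplicity (the sum is
real, by symmetry, so that the powers are replaced by cosines) -/
noncomputable def F (α T : ℝ) : ℝ :=
  (∑ᶠ p ∈ {p : ℂ × ℂ | p.1 ∈ Zeros ∧ p.2 ∈ Zeros ∧ 0 < p.1.im ∧ p.1.im ≤ T ∧ 0 < p.2.im ∧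
    p.2.im ≤ T}, (mult p.1 : ℝ) * mult p.2 * (Real.cos (α * Real.log T * (p.1.im - p.2.im)) *
      (4 / (4 + (p.1.im - p.2.im) ^ 2)))) / (T * Real.log T / (2 * Real.pi))

/-- `S (x, T) = ∑ x ^ (iγ)`, over the ordinates in `(0, T]`, with multiplicity -/
noncomputable def S (x T : ℝ) : ℂ :=
  ∑ᶠ s ∈ {s : ℂ | s ∈ Zeros ∧ 0 < s.im ∧ s.im ≤ T}, (mult s : ℂ) * (x : ℂ) ^ (Complex.I * s.im)

/-- the mean square of `S (x, T)` over `[X, cX]`, divided by `(T / 2π) log T` -/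
noncomputable def meanSq (c X T : ℝ) : ℝ :=
  (∫ x in X..(c * X), ‖S x T‖ ^ 2 / x) / Real.log c / (T * Real.log T / (2 * Real.pi))

/-- Q1: the strong pair correlation conjecture -/
def Strong : Prop := ∀ A ε : ℝ, 1 < A → 0 < ε → ∀ᶠ T : ℝ in atTop, ∀ α : ℝ,
  1 ≤ α → α ≤ A → |F α T - 1| ≤ ε

/-- The known range: `F (α, T) = α + o (1)` uniformly for `a ≤ α ≤ 1`, for every `a > 0`.  This holds
under RH (Montgomery, Goldston, Montgomery). -/
def KnownRange : Prop := ∀ a ε : ℝ, 0 < a → 0 < ε → ∀ᶠ T : ℝ in atTop, ∀ α : ℝ,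
  a ≤ α → α ≤ 1 → |F α T - α| ≤ ε

/-- `F (α, T) = min (α, 1) + o (1)` uniformly for `a ≤ α ≤ A`, for all `0 < a < A` -/
def FormFactor : Prop := ∀ a A ε : ℝ, 0 < a → a < A → 0 < ε → ∀ᶠ T : ℝ in atTop, ∀ α : ℝ,
  a ≤ α → α ≤ A → |F α T - min α 1| ≤ ε

/-- the mean square of `S (x, T)` over `[X, cX]` is `(min (log X / log T, 1) + o (1)) (T / 2π) log T`
uniformly for `T ^ a ≤ X ≤ T ^ A`, for all `0 < a < A` -/
def MeanSquares (c : ℝ) : Prop := ∀ a A ε : ℝ, 0 < a → a < A → 0 < ε → ∀ᶠ T : ℝ in atTop,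
  ∀ X : ℝ, T ^ a ≤ X → X ≤ T ^ A → |meanSq c X T - min (Real.log X / Real.log T) 1| ≤ ε

open Pool.Agent.Y749.Rig Pool.Agent.Q85

lemma F_eq (α T : ℝ) : F α T = Mon.PP (ZZ T) (α * Real.log T) / nT T := by
  unfold F Mon.PP
  have hset : {p : ℂ × ℂ | p.1 ∈ Zeros ∧ p.2 ∈ Zeros ∧ 0 < p.1.im ∧ p.1.im ≤ T ∧ 0 < p.2.im ∧
      p.2.im ≤ T} = ((ZZ T ×ˢ ZZ T : Finset (ℂ × ℂ)) : Set (ℂ × ℂ)) := by
    ext p
    rw [Finset.mem_coe, Finset.mem_product, mem_ZZ, mem_ZZ]
    constructor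
    · rintro ⟨h1, h2, h3, h4, h5, h6⟩
      exact ⟨⟨h1.1, h1.2.1, h1.2.2, h3.le, h4⟩, ⟨h2.1, h2.2.1, h2.2.2, h5.le, h6⟩⟩
    · rintro ⟨h1, h2⟩
      exact ⟨⟨h1.1, h1.2.1, h1.2.2.1⟩, ⟨h2.1, h2.2.1, h2.2.2.1⟩, zs_im_pos h1, h1.2.2.2.2,
        zs_im_pos h2, h2.2.2.2.2⟩
  rw [hset, finsum_mem_coe_finset, Finset.sum_product]
  rfl

lemma S_eq {x : ℝ} (hx : 0 < x) (T : ℝ) : ‖S x T‖ ^ 2 = Mon.QQ (ZZ T) (Real.log x) := by
  have hset : {s : ℂ | s ∈ Zeros ∧ 0 < s.im ∧ s.im ≤ T} = ((ZZ T : Finset ℂ) : Set ℂ) := by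
    ext s
    rw [Finset.mem_coe, mem_ZZ]
    constructor
    · rintro ⟨h1, h2, h3⟩
      exact ⟨h1.1, h1.2.1, h1.2.2, h2.le, h3⟩
    · intro h1
      exact ⟨⟨h1.1, h1.2.1, h1.2.2.1⟩, zs_im_pos h1, h1.2.2.2.2⟩
  have h2 : ∀ s : ℂ, (mult s : ℂ) * (x : ℂ) ^ (Complex.I * s.im) =
      ((mm s * Real.cos (Real.log x * s.im) : ℝ) : ℂ) +
        ((mm s * Real.sin (Real.log x * s.im) : ℝ) : ℂ) * Complex.I := by
    intro s
    have h3 : ((mm s : ℝ) : ℂ) = (mult s : ℂ) := Complex.ofReal_natCast _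
    have hx0 : (x : ℂ) ≠ 0 := by exact_mod_cast hx.ne'
    rw [Complex.cpow_def_of_ne_zero hx0, ← Complex.ofReal_log hx.le]
    have e : (Real.log x : ℂ) * (Complex.I * s.im) =
        ((Real.log x * s.im : ℝ) : ℂ) * Complex.I := by push_cast; ring
    rw [e, Complex.exp_mul_I, ← Complex.ofReal_cos, ← Complex.ofReal_sin, Complex.ofReal_mul,
      Complex.ofReal_mul, h3]
    ring
  have h1 : S x T = ((∑ s ∈ ZZ T, mm s * Real.cos (Real.log x * s.im) : ℝ) : ℂ) +
      ((∑ s ∈ ZZ T, mm s * Real.sin (Real.log x * s.im) : ℝ) : ℂ) * Complex.I := by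
    unfold S
    rw [hset, finsum_mem_coe_finset, Finset.sum_congr rfl fun s _ => h2 s,
      Finset.sum_add_distrib, ← Finset.sum_mul, Complex.ofReal_sum, Complex.ofReal_sum]
  rw [h1, Complex.sq_norm, Complex.normSq_add_mul_I]
  unfold Mon.QQ
  rw [sq, sq, Finset.sum_mul_sum, Finset.sum_mul_sum, ← Finset.sum_add_distrib]
  refine Finset.sum_congr rfl fun s _ => ?_
  rw [← Finset.sum_add_distrib]
  refine Finset.sum_congr rfl fun s' _ => ?_
  rw [mul_sub, Real.cos_sub]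
  ring

lemma meanSq_eq {c X : ℝ} (hc : 1 < c) (hX : 0 < X) (T : ℝ) : meanSq c X T =
    (∫ v in (Real.log X)..(Real.log X + Real.log c), Mon.QQ (ZZ T) v) / Real.log c / nT T := by
  have hcX : X ≤ c * X := by nlinarith
  have h1 : ∫ x in X..(c * X), ‖S x T‖ ^ 2 / x =
      ∫ x in X..(c * X), (Mon.QQ (ZZ T) ∘ Real.log) x * x⁻¹ := by
    refine intervalIntegral.integral_congr fun x hx => ?_
    rw [Set.uIcc_of_le hcX] at hx
    have hx0 : 0 < x := hX.trans_le hx.1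
    simp only [Function.comp]
    rw [S_eq hx0, div_eq_mul_inv]
  have h2 : ∫ x in X..(c * X), (Mon.QQ (ZZ T) ∘ Real.log) x * x⁻¹ =
      ∫ v in (Real.log X)..(Real.log (c * X)), Mon.QQ (ZZ T) v := by
    refine intervalIntegral.integral_comp_mul_deriv (fun x hx => ?_) ?_ (Mon.QQ_cont _)
    · rw [Set.uIcc_of_le hcX] at hx
      exact Real.hasDerivAt_log (hX.trans_le hx.1).ne'
    · rw [Set.uIcc_of_le hcX]
      exact continuousOn_inv₀.mono fun x hx => (hX.trans_le hx.1).ne'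
  have h3 : Real.log (c * X) = Real.log X + Real.log c := by
    rw [Real.log_mul (by linarith) hX.ne']
    ring
  unfold meanSq
  rw [h1, h2, h3]
  rfl

lemma ms_iff {c : ℝ} (hc : 1 < c) : MeanSquares c ↔ Mon.UW (Real.log c) := by
  constructor
  · intro h a A ε ha hA hε
    filter_upwards [h a A ε ha hA hε, eventually_ge_atTop 10] with T h1 h2 α hα1 hα2
    have hT0 : 0 < T := by linarith
    have hL := one_lt_log (show 3 ≤ T by linarith)
    have h3 := h1 (T ^ α) (Real.rpow_le_rpow_of_exponent_le (by linarith) hα1)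
      (Real.rpow_le_rpow_of_exponent_le (by linarith) hα2)
    rw [meanSq_eq hc (Real.rpow_pos_of_pos hT0 _), Real.log_rpow hT0,
      mul_div_assoc, div_self (by linarith), mul_one] at h3
    exact h3
  · intro h a A ε ha hA hε
    filter_upwards [h a A ε ha hA hε, eventually_ge_atTop 10] with T h1 h2 X hX1 hX2
    have hT0 : 0 < T := by linarith
    have hL := one_lt_log (show 3 ≤ T by linarith)
    have hL0 : 0 < Real.log T := by linarith
    have hX0 : 0 < X := (Real.rpow_pos_of_pos hT0 _).trans_le hX1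
    have e1 : Real.log X / Real.log T * Real.log T = Real.log X := div_mul_cancel₀ _ hL0.ne'
    have h3 := h1 (Real.log X / Real.log T) (by
      rw [le_div_iff₀ hL0, ← Real.log_rpow hT0]
      exact Real.log_le_log (Real.rpow_pos_of_pos hT0 _) hX1) (by
      rw [div_le_iff₀ hL0, ← Real.log_rpow hT0]
      exact Real.log_le_log hX0 hX2)
    rw [e1] at h3
    rw [meanSq_eq hc hX0]
    exact h3

lemma ff_iff : FormFactor ↔ Mon.UF := by
  unfold FormFactor Mon.UF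
  simp_rw [F_eq]

lemma ff_strong (h : FormFactor) : Strong := by
  intro A ε hA hε
  filter_upwards [h (1 / 2) A ε (by norm_num) (by linarith) hε] with T h1 α hα1 hα2
  have h2 := h1 α (by linarith) hα2
  rwa [min_eq_right hα1] at h2

lemma strong_ff (hK : KnownRange) (h : Strong) : FormFactor := by
  intro a A ε ha hA hε
  filter_upwards [h (max A 2) ε (lt_max_of_lt_right (by norm_num)) hε, hK a ε ha hε]
    with T h1 h2 α hα1 hα2
  rcases le_total α 1 with h3 | h3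
  · rw [min_eq_left h3]
    exact h2 α hα1 h3
  · rw [min_eq_right h3]
    exact h1 α h3 (hα2.trans (le_max_left _ _))

/-- **The strong pair correlation conjecture and mean squares of `∑ x ^ (iγ)`.** -/
theorem result :
    (FormFactor ↔ ∀ c : ℝ, 1 < c → MeanSquares c) ∧
    (FormFactor ↔ ∀ δ : ℝ, 0 < δ → ∃ c : ℝ, 1 < c ∧ c < 1 + δ ∧ MeanSquares c) ∧
    (FormFactor → Strong) ∧
    (KnownRange → (Strong ↔ ∀ c : ℝ, 1 < c → MeanSquares c)) := by
  have h1 : FormFactor → ∀ c : ℝ, 1 < c → MeanSquares c := fun h c hc =>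
    (ms_iff hc).2 (Mon.UF_UW (ff_iff.1 h) (Real.log_pos hc))
  have h2 : (∀ δ : ℝ, 0 < δ → ∃ c : ℝ, 1 < c ∧ c < 1 + δ ∧ MeanSquares c) → FormFactor := by
    intro h
    refine ff_iff.2 (Mon.UW_UF fun δ hδ => ?_)
    obtain ⟨c, hc, hcδ, hM⟩ := h δ hδ
    refine ⟨Real.log c, Real.log_pos hc, ?_, (ms_iff hc).1 hM⟩
    have := Real.log_le_sub_one_of_pos (show 0 < c by linarith)
    linarith
  have h3 : (∀ c : ℝ, 1 < c → MeanSquares c) →
      ∀ δ : ℝ, 0 < δ → ∃ c : ℝ, 1 < c ∧ c < 1 + δ ∧ MeanSquares c := fun h δ hδ =>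
    ⟨1 + δ / 2, by linarith, by linarith, h _ (by linarith)⟩
  exact ⟨⟨h1, fun h => h2 (h3 h)⟩, ⟨fun h => h3 (h1 h), h2⟩, ff_strong, fun hK =>
    ⟨fun h => h1 (strong_ff hK h), fun h => ff_strong (h2 (h3 h))⟩⟩

end Pool.Agent.Results.MP_00e05b_nt.ExponentialSums
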