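import Pool.Agent.Q85.Mon.Lff

/-!
# The strong pair correlation conjecture and local form factors

Unconditional (only the ordinates of the zeros enter).  For a window `(t, t + H]` let
`F (α; t, H) = (H log T / 2π)⁻¹ ∑ T ^ (i α (γ - γ')) w (γ - γ') ≥ 0`, `γ, γ'` in the window, be the
form factor of the zeros in the window, so that `F (α, T) = F (α; 0, T)` is Montgomery's function.
It is shown that the mean of the local form factors over `0 ≤ t ≤ T - H` is `F (α, T)` up to
`O (log T log 2H / H + H log T / T)`, uniformly for all real `α`.  So Montgomery's function at every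
point `α` is the mean of the non-negative form factors of short windows, of any length `H (T)` with
`log T loglog T = o (H)` and `H = o (T / log T)`, and the strong pair correlation conjecture is
equivalent to the convergence of these means to `1`, uniformly for `1 ≤ α ≤ A`.
-/

set_option autoImplicit false

open Filter Topology

namespace Pool.Agent.Results.MP_00e05b_nt.LocalFormFactors

/-- the nontrivial zeros of `ζ` -/
def Zeros : Set ℂ := {s : ℂ | riemannZeta s = 0 ∧ 0 < s.re ∧ s.re < 1}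

/-- the multiplicity of `s` as a zero of `ζ` -/
noncomputable def mult (s : ℂ) : ℕ := analyticOrderNatAt riemannZeta s

/-- The form factor `F (α; t, H) = (H log T / 2π)⁻¹ ∑ T ^ (i α (γ - γ')) w (γ - γ')` of the window
`(t, t + H]`, where `w (u) = 4 / (4 + u²)` and `γ, γ'` run over the ordinates in `(t, t + H]`, with
multiplicity (the sum is real, by symmetry, so that the powers are replaced by cosines) -/
noncomputable def Floc (α T t H : ℝ) : ℝ :=
  (∑ᶠ p ∈ {p : ℂ × ℂ | p.1 ∈ Zeros ∧ p.2 ∈ Zeros ∧ t < p.1.im ∧ p.1.im ≤ t + H ∧ t < p.2.im ∧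
    p.2.im ≤ t + H}, (mult p.1 : ℝ) * mult p.2 * (Real.cos (α * Real.log T * (p.1.im - p.2.im)) *
      (4 / (4 + (p.1.im - p.2.im) ^ 2)))) / (H * Real.log T / (2 * Real.pi))

/-- Montgomery's function `F (α, T)`, the form factor of the window `(0, T]` -/
noncomputable def F (α T : ℝ) : ℝ := Floc α T 0 T

/-- the mean of the form factors of the windows of length `H` in `(0, T]` -/
noncomputable def meanLoc (α T H : ℝ) : ℝ := (∫ t in (0 : ℝ)..(T - H), Floc α T t H) / (T - H)

/-- Q1: the strong pair correlation conjecture -/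
def Strong : Prop := ∀ A : ℝ, 1 < A → ∀ ε : ℝ, 0 < ε → ∀ᶠ T : ℝ in atTop, ∀ α : ℝ,
  1 ≤ α → α ≤ A → |F α T - 1| ≤ ε

open Pool.Agent.Y749.Rig Pool.Agent.Q85

lemma Floc_eq (α T : ℝ) {t H T' : ℝ} (ht : 0 ≤ t) (h : t + H ≤ T') : Floc α T t H =
    Mon.PP (Mon.WZ T' H t) (α * Real.log T) / (H * Real.log T / (2 * Real.pi)) := by
  classical
  unfold Floc Mon.PP
  have hset : {p : ℂ × ℂ | p.1 ∈ Zeros ∧ p.2 ∈ Zeros ∧ t < p.1.im ∧ p.1.im ≤ t + H ∧
      t < p.2.im ∧ p.2.im ≤ t + H} =
        ((Mon.WZ T' H t ×ˢ Mon.WZ T' H t : Finset (ℂ × ℂ)) : Set (ℂ × ℂ)) := by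
    ext p
    unfold Mon.WZ
    rw [Finset.mem_coe, Finset.mem_product, Finset.mem_filter, Finset.mem_filter, mem_ZZ, mem_ZZ]
    constructor
    · rintro ⟨h1, h2, h3, h4, h5, h6⟩
      exact ⟨⟨⟨h1.1, h1.2.1, h1.2.2, by linarith, by linarith⟩, h3, h4⟩,
        ⟨⟨h2.1, h2.2.1, h2.2.2, by linarith, by linarith⟩, h5, h6⟩⟩
    · rintro ⟨⟨h1, h3, h4⟩, ⟨h2, h5, h6⟩⟩
      exact ⟨⟨h1.1, h1.2.1, h1.2.2.1⟩, ⟨h2.1, h2.2.1, h2.2.2.1⟩, h3, h4, h5, h6⟩
  rw [hset, finsum_mem_coe_finset, Finset.sum_product]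
  rfl

lemma WZ_full (T : ℝ) : Mon.WZ T T 0 = ZZ T := by
  classical
  ext s
  unfold Mon.WZ
  rw [Finset.mem_filter]
  constructor
  · exact fun h => h.1
  · intro h
    have h1 := h
    rw [mem_ZZ] at h1
    exact ⟨h, zs_im_pos h1, by linarith [h1.2.2.2.2]⟩

lemma F_eq (α T : ℝ) : F α T = Mon.PP (ZZ T) (α * Real.log T) / nT T := by
  unfold F nT
  rw [Floc_eq α T (T' := T) le_rfl (by linarith), WZ_full]

lemma mean_eq (α : ℝ) {T H : ℝ} (h : 0 ≤ T - H) : meanLoc α T H =
    (∫ t in (0 : ℝ)..(T - H), Mon.PP (Mon.WZ T H t) (α * Real.log T) /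
      (H * Real.log T / (2 * Real.pi))) / (T - H) := by
  unfold meanLoc
  congr 1
  refine intervalIntegral.integral_congr fun t ht => ?_
  rw [Set.uIcc_of_le h] at ht
  exact Floc_eq α T ht.1 (by linarith [ht.2])

/-- **Local form factors.**  (1) The form factors of the windows are non-negative.  (2) Their mean is
Montgomery's function, with an error that is uniform in `α`.  (3) The strong pair correlation
conjecture is equivalent to the convergence of the means to `1`, for windows of any length `H (T)`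
with `log T log H = o (H)` and `H = o (T / log T)`. -/
theorem result :
    (∀ α T t H : ℝ, 1 ≤ T → 0 < H → 0 ≤ t → 0 ≤ Floc α T t H) ∧
    (∃ C : ℝ, 0 < C ∧ ∀ T H α : ℝ, 10 ≤ T → 1 ≤ H → H ≤ T / 2 →
      |meanLoc α T H - F α T| ≤
        C * (Real.log T * (1 + Real.log H) / H + H * Real.log T / T)) ∧
    (∀ H : ℝ → ℝ, (∀ᶠ T in atTop, 1 ≤ H T) →
      Tendsto (fun T => Real.log T * (1 + Real.log (H T)) / H T) atTop (𝓝 0) →
      Tendsto (fun T => H T * Real.log T / T) atTop (𝓝 0) →
      (Strong ↔ ∀ A : ℝ, 1 < A → ∀ ε : ℝ, 0 < ε → ∀ᶠ T : ℝ in atTop, ∀ α : ℝ,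
        1 ≤ α → α ≤ A → |meanLoc α T (H T) - 1| ≤ ε)) := by
  have h2 : ∃ C : ℝ, 0 < C ∧ ∀ T H α : ℝ, 10 ≤ T → 1 ≤ H → H ≤ T / 2 →
      |meanLoc α T H - F α T| ≤
        C * (Real.log T * (1 + Real.log H) / H + H * Real.log T / T) := by
    obtain ⟨C, hC, h⟩ := Mon.loc_norm
    refine ⟨C, hC, fun T H α hT hH1 hH2 => ?_⟩
    rw [mean_eq α (by linarith), F_eq]
    exact h T H hT hH1 hH2 (α * Real.log T)
  refine ⟨fun α T t H hT hH ht => ?_, h2, fun H hH1 hH2 hH3 => ?_⟩
  · rw [Floc_eq α T (T' := t + H) ht le_rfl]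
    have hpi := Real.pi_pos
    have hL := Real.log_nonneg hT
    exact div_nonneg (Mon.PP_nonneg _ _) (by positivity)
  · obtain ⟨C, hC, h⟩ := h2
    have h4 : Tendsto (fun T => C * (Real.log T * (1 + Real.log (H T)) / H T +
        H T * Real.log T / T)) atTop (𝓝 0) := by
      have := (hH2.add hH3).const_mul C
      rwa [add_zero, mul_zero] at this
    have h5 : ∀ ε : ℝ, 0 < ε → ∀ᶠ T : ℝ in atTop, ∀ α : ℝ, |meanLoc α T (H T) - F α T| ≤ ε := by
      intro ε hε
      filter_upwards [h4.eventually (gt_mem_nhds hε), hH1, eventually_ge_atTop 10,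
        hH3.eventually (gt_mem_nhds (show (0 : ℝ) < 1 / 2 by norm_num))] with T h6 h7 h8 h9 α
      have hL := one_lt_log (show 3 ≤ T by linarith)
      have h10 : H T ≤ T / 2 := by
        rw [div_lt_iff₀ (by linarith)] at h9
        nlinarith
      exact (h T (H T) α h8 h7 h10).trans h6.le
    constructor
    · intro hS A hA ε hε
      filter_upwards [hS A hA (ε / 2) (by positivity), h5 (ε / 2) (by positivity)]
        with T h6 h7 α hα1 hα2
      have h8 := h6 α hα1 hα2
      have h9 := h7 α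
      rw [abs_le] at h8 h9 ⊢
      constructor <;> linarith
    · intro hS A hA ε hε
      filter_upwards [hS A hA (ε / 2) (by positivity), h5 (ε / 2) (by positivity)]
        with T h6 h7 α hα1 hα2
      have h8 := h6 α hα1 hα2
      have h9 := h7 α
      rw [abs_le] at h8 h9 ⊢
      constructor <;> linarith

end Pool.Agent.Results.MP_00e05b_nt.LocalFormFactors
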