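import Pool.Agent.Q85.Mon.Net

/-!
# The strong pair correlation conjecture on a net

Unconditional (only the ordinates of the zeros enter).  Let `F (α, T)` be Montgomery's function and
`G (y, T) = T log T F (y / log T, T)`.  It is shown that `G` is almost monotonic in `T`, uniformly in
`y`, and satisfies Harnack's inequality in `y`: with an absolute constant `C`

`G (y, T) ≤ exp (2 |y - y'|) G (y', T') + C log⁴ T'`      for all `10 ≤ T ≤ T'` and all real `y, y'`.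

So `F` has no short peaks or gaps: a value of `F` bounds all the values at the points `(α', T')` with
`T' / T` and `α' log T' - α log T` bounded.  As a consequence the strong pair correlation conjecture,
`F (α, T) = 1 + o (1)` uniformly for `1 ≤ α ≤ A`, is a statement on a sparse countable net: it holds
if and only if for all `A` and for `l > 1` arbitrarily near to `1` it holds for `T = l ^ j` and the
at most `(A - 1) j + 1` values `α = k / j` (`j ≤ k ≤ A j` with integers `j, k`), which for given `A`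
and `l` are `O (log T)` values for `T` in a geometric progression.

Proof.  Harnack's inequality follows from `w^ = ` a Laplace kernel and the positivity of
`∑ ∑ cos (v (γ - γ'))`.  The form `∑ ∑ cos (y (γ - γ')) w (γ - γ')` is positive on any set of
zeros, so that the form for the zeros up to `T'` is at least the one for the zeros up to `T`, up to
the cross terms; these are `O (log⁴ T')`, uniformly in `y`, as only the zeros near `T` matter.
-/

set_option autoImplicit false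

open Filter Topology

namespace Pool.Agent.Results.MP_00e05b_nt.NetCriterion

/-- the nontrivial zeros of `ζ` -/
def Zeros : Set ℂ := {s : ℂ | riemannZeta s = 0 ∧ 0 < s.re ∧ s.re < 1}

/-- the multiplicity of `s` as a zero of `ζ` -/
noncomputable def mult (s : ℂ) : ℕ := analyticOrderNatAt riemannZeta s

/-- Montgomery's function `F (α, T) = (T log T / 2π)⁻¹ ∑ T ^ (i α (γ - γ')) w (γ - γ')`, where
`w (u) = 4 / (4 + u²)` and `γ, γ'` run over the ordinates in `(0, T]`, with multiplicity (the sum is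
real, by symmetry, so that the powers are replaced by cosines) -/
noncomputable def F (α T : ℝ) : ℝ :=
  (∑ᶠ p ∈ {p : ℂ × ℂ | p.1 ∈ Zeros ∧ p.2 ∈ Zeros ∧ 0 < p.1.im ∧ p.1.im ≤ T ∧ 0 < p.2.im ∧
    p.2.im ≤ T}, (mult p.1 : ℝ) * mult p.2 * (Real.cos (α * Real.log T * (p.1.im - p.2.im)) *
      (4 / (4 + (p.1.im - p.2.im) ^ 2)))) / (T * Real.log T / (2 * Real.pi))

/-- Q1: the strong pair correlation conjecture -/
def Strong : Prop := ∀ A : ℝ, 1 < A → ∀ ε : ℝ, 0 < ε → ∀ᶠ T : ℝ in atTop, ∀ α : ℝ,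
  1 ≤ α → α ≤ A → |F α T - 1| ≤ ε

/-- the strong pair correlation conjecture on the net `T = l ^ j`, `α = k / j`, `j ≤ k ≤ A j` -/
def Net (l A : ℝ) : Prop := ∀ ε : ℝ, 0 < ε → ∃ J : ℕ, ∀ j k : ℕ, J ≤ j → j ≤ k →
  (k : ℝ) ≤ A * j → |F (k / j) (l ^ j) - 1| ≤ ε

/-- `limsup F ≤ c` on the net -/
def NetUpper (l A c : ℝ) : Prop := ∀ ε : ℝ, 0 < ε → ∃ J : ℕ, ∀ j k : ℕ, J ≤ j → j ≤ k →
  (k : ℝ) ≤ A * j → F (k / j) (l ^ j) ≤ c + ε

/-- `liminf F ≥ c` on the net -/
def NetLower (l A c : ℝ) : Prop := ∀ ε : ℝ, 0 < ε → ∃ J : ℕ, ∀ j k : ℕ, J ≤ j → j ≤ k →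
  (k : ℝ) ≤ A * j → c - ε ≤ F (k / j) (l ^ j)

open Pool.Agent.Y749.Rig Pool.Agent.Q85

lemma F_eq (α T : ℝ) : F α T = Mon.FN α T := by
  unfold F Mon.FN Mon.PP
  have hset : {p : ℂ × ℂ | p.1 ∈ Zeros ∧ p.2 ∈ Zeros ∧ 0 < p.1.im ∧ p.1.im ≤ T ∧ 0 < p.2.im ∧
      p.2.im ≤ T} = ((ZZ T ×ˢ ZZ T : Finset (ℂ × ℂ)) : Set (ℂ × ℂ)) := by
    ext p
    rw [Finset.mem_coe, Finset.mem_product, mem_ZZ, mem_ZZ]
    constructor
    · rintro ⟨h1, h2, h3, h4, h5, h6⟩
      exact ⟨⟨h1.1, h1.2.1, h1.2.2, h3.le, h4⟩, ⟨h2.1, h2.2.1, h2.2.2, h5.le, h6⟩⟩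
    · rintro ⟨h1, h2⟩
      exact ⟨⟨h1.1, h1.2.1, h1.2.2.1⟩, ⟨h2.1, h2.2.1, h2.2.2.1⟩, zs_im_pos h1, h1.2.2.2.2,
        zs_im_pos h2, h2.2.2.2.2⟩
  rw [hset, finsum_mem_coe_finset, Finset.sum_product]
  rfl

lemma idx_ev {l : ℝ} (hl : 1 < l) {P : ℝ → Prop} (h : ∀ᶠ T : ℝ in atTop, P T) :
    ∃ J : ℕ, ∀ j : ℕ, J ≤ j → P (l ^ j) := by
  have h1 : Tendsto (fun j : ℕ => l ^ j) atTop atTop := tendsto_pow_atTop_atTop_of_one_lt hl
  exact (h1.eventually h).exists_forall_of_atTop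

lemma strong_net (h : Strong) {A l : ℝ} (hA : 1 < A) (hl : 1 < l) : Net l A := by
  intro ε hε
  obtain ⟨J, hJ⟩ := idx_ev hl (h A hA ε hε)
  refine ⟨max J 1, fun j k hj hjk hk => hJ j (le_trans (le_max_left _ _) hj) _ ?_ ?_⟩
  · have hj1 : 1 ≤ j := le_trans (le_max_right _ _) hj
    have hj0 : (0 : ℝ) < j := by exact_mod_cast hj1
    rw [le_div_iff₀ hj0, one_mul]
    exact_mod_cast hjk
  · have hj1 : 1 ≤ j := le_trans (le_max_right _ _) hj
    have hj0 : (0 : ℝ) < j := by exact_mod_cast hj1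
    rw [div_le_iff₀ hj0]
    exact hk

lemma up_net {l A c : ℝ} (h : NetUpper l A c) : Mon.NetUpper l A c := by
  intro ε hε
  obtain ⟨J, hJ⟩ := h ε hε
  refine ⟨J, fun j k h1 h2 h3 => ?_⟩
  rw [← F_eq]
  exact hJ j k h1 h2 h3

lemma low_net {l A c : ℝ} (h : NetLower l A c) : Mon.NetLower l A c := by
  intro ε hε
  obtain ⟨J, hJ⟩ := h ε hε
  refine ⟨J, fun j k h1 h2 h3 => ?_⟩
  rw [← F_eq]
  exact hJ j k h1 h2 h3

lemma net_strong (h : ∀ A : ℝ, 1 < A → ∀ δ : ℝ, 0 < δ → ∃ l : ℝ, 1 < l ∧ l < 1 + δ ∧ Net l A) :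
    Strong := by
  intro A hA ε hε
  obtain ⟨δ, hδ⟩ : ∃ δ : ℝ, δ = min 1 (ε / 14) := ⟨_, rfl⟩
  have hδ0 : 0 < δ := by rw [hδ]; exact lt_min one_pos (by positivity)
  have hδ1 : δ ≤ 1 := by rw [hδ]; exact min_le_left _ _
  have hδ2 : δ ≤ ε / 14 := by rw [hδ]; exact min_le_right _ _
  obtain ⟨l, hl, hlδ, hN⟩ := h (A + 1) (by linarith) δ hδ0
  have h1 : NetUpper l (A + 1) 1 := by
    intro e he
    obtain ⟨J, hJ⟩ := hN e he
    exact ⟨J, fun j k a b c => by linarith [(abs_le.1 (hJ j k a b c)).2]⟩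
  have h2 : NetLower l (A + 1) 1 := by
    intro e he
    obtain ⟨J, hJ⟩ := hN e he
    exact ⟨J, fun j k a b c => by linarith [(abs_le.1 (hJ j k a b c)).1]⟩
  have h3 : l ^ 3 ≤ 1 + ε / 2 := by
    obtain ⟨d, hd⟩ : ∃ d : ℝ, d = l - 1 := ⟨_, rfl⟩
    have hld : l = 1 + d := by rw [hd]; ring
    have hd0 : 0 < d := by rw [hd]; linarith
    have hd1 : d ≤ 1 := by rw [hd]; linarith
    have hd2 : d ≤ ε / 14 := by rw [hd]; linarith
    have h4 : (1 + d) ^ 3 = 1 + 3 * d + 3 * (d * d) + d * (d * d) := by ring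
    have h5 : d * d ≤ d := by nlinarith
    have h6 : d * (d * d) ≤ d := by nlinarith
    rw [hld, h4]
    linarith
  have h4 : 1 - ε / 2 ≤ 1 / l ^ 3 := by
    have h5 : 0 < l ^ 3 := by positivity
    have h6 : 1 ≤ l ^ 3 := one_le_pow₀ hl.le
    rw [le_div_iff₀ h5]
    have h7 : (1 - ε / 2) * l ^ 3 ≤ 1 := by
      rcases le_or_gt (1 - ε / 2) 0 with h8 | h8
      · nlinarith
      · nlinarith
    exact h7
  filter_upwards [Mon.up hl hA.le (show A < A + 1 by linarith) zero_le_one (up_net h1)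
    (show 0 < ε / 2 by positivity), Mon.low hl hA.le (show A < A + 1 by linarith) zero_le_one
    (low_net h2) (show 0 < ε / 2 by positivity)] with T h5 h6 α hα1 hα2
  have h7 := h5 α hα1 hα2
  have h8 := h6 α hα1 hα2
  rw [← F_eq] at h7 h8
  rw [abs_le]
  constructor <;> linarith

/-- **The strong pair correlation conjecture on a net.**  (1) The regularity of Montgomery's function.
(2) One-sided bounds on a net imply bounds for all large `T` and all `α` in `[1, A']`.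
(3) The strong pair correlation conjecture holds if and only if it holds on all the nets `T = l ^ j`,
`α = k / j`, and if and only if it holds on such nets with `l` arbitrarily near to `1`. -/
theorem result :
    (∃ C : ℝ, 0 < C ∧ ∀ T T' : ℝ, 10 ≤ T → T ≤ T' → ∀ α α' : ℝ,
      T * Real.log T * F α T ≤ Real.exp (2 * |α * Real.log T - α' * Real.log T'|) *
        (T' * Real.log T' * F α' T') + C * Real.log T' ^ 4) ∧
    (∀ l A A' c : ℝ, 1 < l → 1 ≤ A' → A' < A → 0 ≤ c →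
      (NetUpper l A c → ∀ ε : ℝ, 0 < ε → ∀ᶠ T : ℝ in atTop, ∀ α : ℝ, 1 ≤ α → α ≤ A' →
        F α T ≤ l ^ 3 * c + ε) ∧
      (NetLower l A c → ∀ ε : ℝ, 0 < ε → ∀ᶠ T : ℝ in atTop, ∀ α : ℝ, 1 ≤ α → α ≤ A' →
        c / l ^ 3 - ε ≤ F α T)) ∧
    (Strong ↔ ∀ A : ℝ, 1 < A → ∀ l : ℝ, 1 < l → Net l A) ∧
    (Strong ↔ ∀ A : ℝ, 1 < A → ∀ δ : ℝ, 0 < δ → ∃ l : ℝ, 1 < l ∧ l < 1 + δ ∧ Net l A) := by
  refine ⟨?_, fun l A A' c hl hA' hA hc => ⟨fun h ε hε => ?_, fun h ε hε => ?_⟩,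
    ⟨fun h A hA l hl => strong_net h hA hl, fun h => net_strong fun A hA δ hδ =>
      ⟨1 + δ / 2, by linarith, by linarith, h A hA _ (by linarith)⟩⟩,
    ⟨fun h A hA δ hδ => ⟨1 + δ / 2, by linarith, by linarith, strong_net h hA (by linarith)⟩,
      net_strong⟩⟩
  · obtain ⟨C, hC, h⟩ := Mon.base
    refine ⟨C, hC, fun T T' hT hTT α α' => ?_⟩
    have h1 := h T T' hT hTT (α * Real.log T) (α' * Real.log T')
    have hL := one_lt_log (show 3 ≤ T by linarith)
    have hL' := one_lt_log (show 3 ≤ T' by linarith)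
    rw [mul_div_assoc, mul_div_assoc, div_self (by linarith), div_self (by linarith), mul_one,
      mul_one, ← F_eq, ← F_eq] at h1
    exact h1
  · filter_upwards [Mon.up hl hA' hA hc (up_net h) hε] with T hT α h1 h2
    rw [F_eq]
    exact hT α h1 h2
  · filter_upwards [Mon.low hl hA' hA hc (low_net h) hε] with T hT α h1 h2
    rw [F_eq]
    exact hT α h1 h2

end Pool.Agent.Results.MP_00e05b_nt.NetCriterion
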