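import Pool.Agent.Q34.KR.Sim

/-!
# Recurrence for the form factor of the zeros of zeta

Let `F(α, T)` be Montgomery's function. Assume RH (as the question does), so that `F` is known for `|α| ≤ 1`. The
strong pair correlation conjecture asserts that `F(α, T)` is near `1` for `1 ≤ α ≤ A`. For `0 < δ < 1` let
`M(δ, β)` be the mean of `F(·, T)` over the window `(β - δ, β + δ)` with the tent weight
`(1 - |a| / δ) / δ`, whose integral is one; the conjectured value is `1` for `β ≥ 1 + δ`. For a given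
`β` and small `δ` no positive lower bound for `M(δ, β)` is known. We show: for all `m ≥ 2`, `η > 0` and all large `T`, for
ALL real `b_1, …, b_m` (they may depend on `T`) the average of `M(δ, b_j - b_i)` over the pairs `i < j` is at least

`1 - (1 / δ + δ / 3 - 1) / (m - 1) - η`,

so that this bound holds for one of the differences; it is near `1` for large `m`. In particular it holds for one of
the multiples `β, 2β, …, (m - 1)β` of any `β`, for instance of any `β ≥ 1 + δ`. By Ramsey's theorem there are, for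
`ε > 0` and `r ≥ 1`, numbers `m` and `T₀` such that for any `r` heights `t_1, …, t_r ≥ T₀` and any `m` vectors
`b_1, …, b_m` of `ℝ^r` for one pair `i < j` all the `r` means of `F(·, t_s)` around the components
`(b_j - b_i)_s` are at least `1 - ε`; for instance all the means of `F(·, T)` around `β, 2β, …, rβ`, where `β` is one of the
differences of any `m` real numbers.

Idea of the proof. `F` is the Fourier transform of the positive measure of the differences of the ordinates, and so is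
`β ↦ M(δ, β)`, with a nonnegative density `φ` with `φ(0) = 1`. So the sum of `M(δ, b_j - b_i)` over all `i, j` is at least
the contribution `m²` of the diagonal, while `M(δ, 0) ≤ 1 / δ + δ / 3 + o(1)` by Montgomery's theorem.
-/

set_option autoImplicit false

open Filter MeasureTheory
open Complex (I)

namespace Pool.Agent.Results.MP_00e05b_nt.RecurrentWindows

/-- the nontrivial zeros of `ζ` with ordinate in `(0, T]` -/
def zeros (T : ℝ) : Set ℂ :=
  {s : ℂ | riemannZeta s = 0 ∧ 0 < s.re ∧ s.re < 1 ∧ 0 < s.im ∧ s.im ≤ T}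

/-- the multiplicity of `s` as a zero of `ζ` -/
noncomputable def mult (s : ℂ) : ℕ := analyticOrderNatAt riemannZeta s

/-- Montgomery's function `F(α, T) = ((T/2π) log T)⁻¹ ∑ T ^ (iα(γ - γ')) w(γ - γ')`,
`w(u) = 4 / (4 + u²)`, over the ordered pairs of ordinates in `(0, T]`, with multiplicity
(the sum is real, its real part is taken) -/
noncomputable def F (α T : ℝ) : ℝ :=
  (∑ᶠ p ∈ {p : ℂ × ℂ | p.1 ∈ zeros T ∧ p.2 ∈ zeros T}, ((mult p.1 : ℂ) * (mult p.2 : ℂ)) *
    ((T : ℂ) ^ (I * α * ((p.1.im : ℂ) - (p.2.im : ℂ))) *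
      (4 / (4 + ((p.1.im : ℂ) - (p.2.im : ℂ)) ^ 2)))).re / (T / (2 * Real.pi) * Real.log T)

/-- the mean of `F(·, T)` over `(β - δ, β + δ)` with the weight `(1 - |a| / δ) / δ` -/
noncomputable def M (δ β T : ℝ) : ℝ := ∫ a in (-δ)..δ, (1 - |a| / δ) / δ * F (β + a) T

open Pool.Agent.Y749.Rig Pool.Agent.Q34.KR

lemma term_eq {T : ℝ} (hT : 0 < T) (α x y : ℝ) (k l : ℕ) :
    (((k : ℂ) * (l : ℂ)) * ((T : ℂ) ^ (I * α * ((x : ℂ) - (y : ℂ))) *
      (4 / (4 + ((x : ℂ) - (y : ℂ)) ^ 2)))).re =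
      (k : ℝ) * l * (Real.cos (α * Real.log T * (x - y)) * ww (x - y)) := by
  have e1 : (T : ℂ) ^ (I * α * ((x : ℂ) - (y : ℂ))) =
      ((Real.cos (α * Real.log T * (x - y)) : ℝ) : ℂ) +
        ((Real.sin (α * Real.log T * (x - y)) : ℝ) : ℂ) * I := by
    rw [Complex.cpow_def_of_ne_zero (by exact_mod_cast hT.ne'), ← Complex.ofReal_log hT.le]
    have e : (Real.log T : ℂ) * (I * α * ((x : ℂ) - (y : ℂ))) =
        ((α * Real.log T * (x - y) : ℝ) : ℂ) * I := by push_cast; ring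
    rw [e, Complex.exp_mul_I, ← Complex.ofReal_cos, ← Complex.ofReal_sin]
  have e2 : (4 / (4 + ((x : ℂ) - (y : ℂ)) ^ 2)) = ((ww (x - y) : ℝ) : ℂ) := by
    unfold ww
    push_cast
    rfl
  have e3 : ((k : ℂ) * (l : ℂ)) * ((((Real.cos (α * Real.log T * (x - y)) : ℝ) : ℂ) +
      ((Real.sin (α * Real.log T * (x - y)) : ℝ) : ℂ) * I) * ((ww (x - y) : ℝ) : ℂ)) =
      (((k : ℝ) * l * (Real.cos (α * Real.log T * (x - y)) * ww (x - y)) : ℝ) : ℂ) +
      (((k : ℝ) * l * (Real.sin (α * Real.log T * (x - y)) * ww (x - y)) : ℝ) : ℂ) * I := by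
    push_cast
    ring
  rw [e1, e2, e3, Complex.add_re, Complex.ofReal_re, Complex.re_ofReal_mul, Complex.I_re, mul_zero,
    add_zero]

lemma F_eq {T : ℝ} (hT : 10 ≤ T) (α : ℝ) : F α T = Fr T α := by
  have hL := one_lt_log (show 3 ≤ T by linarith)
  have hT0 : (0 : ℝ) < T := by linarith
  have hpi := Real.pi_pos
  unfold Fr
  rw [Mp_integral hT (fun x => Real.cos (2 * Real.pi * α * x) * ww (2 * Real.pi * x / Real.log T))]
  unfold F
  have hset : {p : ℂ × ℂ | p.1 ∈ zeros T ∧ p.2 ∈ zeros T} =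
      ((ZZ T ×ˢ ZZ T : Finset (ℂ × ℂ)) : Set (ℂ × ℂ)) := by
    ext p
    rw [Finset.mem_coe, Finset.mem_product, mem_ZZ, mem_ZZ]
    constructor
    · rintro ⟨h1, h2⟩
      exact ⟨⟨h1.1, h1.2.1, h1.2.2.1, h1.2.2.2.1.le, h1.2.2.2.2⟩,
        ⟨h2.1, h2.2.1, h2.2.2.1, h2.2.2.2.1.le, h2.2.2.2.2⟩⟩
    · rintro ⟨h1, h2⟩
      exact ⟨⟨h1.1, h1.2.1, h1.2.2.1, zs_im_pos h1, h1.2.2.2.2⟩,
        ⟨h2.1, h2.2.1, h2.2.2.1, zs_im_pos h2, h2.2.2.2.2⟩⟩
  rw [hset, finsum_mem_coe_finset, Finset.sum_product, Complex.re_sum]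
  unfold nT RR
  congr 1
  · refine Finset.sum_congr rfl fun s _ => ?_
    rw [Complex.re_sum]
    refine Finset.sum_congr rfl fun s' _ => ?_
    rw [term_eq hT0]
    have e1 : 2 * Real.pi * α * ((s.im - s'.im) * Real.log T / (2 * Real.pi)) =
        α * Real.log T * (s.im - s'.im) := by
      field_simp
    have e2 : 2 * Real.pi * ((s.im - s'.im) * Real.log T / (2 * Real.pi)) / Real.log T =
        s.im - s'.im := by
      have : Real.log T ≠ 0 := by linarith
      field_simp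
    show (mult s : ℝ) * mult s' * (Real.cos (α * Real.log T * (s.im - s'.im)) * ww (s.im - s'.im)) =
      mm s * mm s' * (Real.cos (2 * Real.pi * α * ((s.im - s'.im) * Real.log T / (2 * Real.pi))) *
        ww (2 * Real.pi * ((s.im - s'.im) * Real.log T / (2 * Real.pi)) / Real.log T))
    rw [e1, e2]
    rfl
  · ring

lemma M_eq {δ : ℝ} (hδ : 0 < δ) {T : ℝ} (hT : 10 ≤ T) (β : ℝ) : M δ β T = G δ T β := by
  unfold M G
  rw [int_supp hδ (fun x hx => by rw [tr_supp hδ x hx, zero_mul])]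
  refine intervalIntegral.integral_congr fun a ha => ?_
  rw [Set.uIcc_of_le (by linarith)] at ha
  show (1 - |a| / δ) / δ * F (β + a) T = tr δ a * Fr T (β + a)
  rw [F_eq hT]
  congr 1
  unfold tr
  rw [max_eq_right]
  have : |a| / δ ≤ 1 := by
    rw [div_le_one hδ]
    exact abs_le.2 ha
  linarith

/-- **Recurrence for the means of Montgomery's function over short windows** (under RH, as in the
question). -/
theorem result (hRH : RiemannHypothesis) (δ : ℝ) (hδ : 0 < δ) (hδ1 : δ < 1) :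
    (∀ η : ℝ, 0 < η → ∀ m : ℕ, 2 ≤ m → ∃ T₀ : ℝ, ∀ T : ℝ, T₀ ≤ T →
      -- the average over the pairs of any `m` real numbers, and one pair
      (∀ b : Fin m → ℝ,
        (1 - (1 / δ + δ / 3 - 1) / (m - 1) - η) * (m * (m - 1) / 2) ≤
          ∑ i, ∑ j ∈ Finset.Ioi i, M δ (b j - b i) T ∧
        ∃ i j : Fin m, i < j ∧ 1 - (1 / δ + δ / 3 - 1) / (m - 1) - η ≤ M δ (b j - b i) T) ∧
      -- multiples
      ∀ β : ℝ, ∃ k : ℕ, 1 ≤ k ∧ k < m ∧ 1 - (1 / δ + δ / 3 - 1) / (m - 1) - η ≤ M δ (k * β) T) ∧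
    -- several windows and heights at once
    ∀ ε : ℝ, 0 < ε → ∀ r : ℕ, ∃ m : ℕ, ∃ T₀ : ℝ, ∀ t : Fin r → ℝ, (∀ s, T₀ ≤ t s) →
      ∀ b : Fin m → Fin r → ℝ, ∃ i j : Fin m, i < j ∧ ∀ s, 1 - ε ≤ M δ (b j s - b i s) (t s) := by
  constructor
  · intro η hη m hm
    obtain ⟨T₀, h⟩ := ((main hRH hδ hδ1 hη hm).and ((main_one hRH hδ hδ1 hη hm).and
      (eventually_ge_atTop 10))).exists_forall_of_atTop
    refine ⟨T₀, fun T hT => ?_⟩
    obtain ⟨h1, h2, h3⟩ := h T hT
    refine ⟨fun b => ?_, fun β => ?_⟩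
    · simp_rw [M_eq hδ h3]
      exact ⟨h1 b, h2 b⟩
    · obtain ⟨i, j, hij, h4⟩ := h2 (fun i => (i : ℕ) * β)
      have hij' : (i : ℕ) < j := hij
      refine ⟨(j : ℕ) - i, by omega, lt_of_le_of_lt (Nat.sub_le _ _) j.2, ?_⟩
      rw [M_eq hδ h3, Nat.cast_sub hij'.le, sub_mul]
      exact h4
  · intro ε hε r
    obtain ⟨m, T₀, hT₀, h⟩ := simul hRH hδ hδ1 hε r
    refine ⟨m, T₀, fun t ht b => ?_⟩
    obtain ⟨i, j, hij, h1⟩ := h t ht b
    refine ⟨i, j, hij, fun s => ?_⟩
    rw [M_eq hδ (hT₀.trans (ht s))]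
    exact h1 s

end Pool.Agent.Results.MP_00e05b_nt.RecurrentWindows
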